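import Pool.Agent.Lib.MP_b07157_ag.PS.Main
import Pool.Agent.Lib.MP_b07157_agP.P1a

/-!
# P1b. The pole side, for polynomials which are non-degenerate on their faces
-/

noncomputable section

namespace MPb07157P

open MvPolynomial Finset MPb07157

variable {n : ℕ} {f : MvPolynomial (Fin n) ℂ} {D : Finset (Fin n)} {s₀ : ℚ}

open Classical in
private theorem eqm_fib (N : ℕ) (J : Finset (Fin n)) (a : Fin n → ℕ) :
    fib N J a (fun _ => 1) =
      fib N J (fun i => if i ∈ J then 1 else a i) (fun i => if i ∈ J then 1 else a i) := by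
  unfold fib
  congr 1
  funext i
  by_cases hi : i ∈ J
  · simp [hi]
  · simp [hi]

open Classical in
private theorem eqm_cap (hf : f ≠ 0) (hnd : ∀ a : Fin n → ℕ, NondegAt f (face f a (nuf f a)))
    {N N' m : ℕ} (hm : m < N) (hm' : m < N') {J : Finset (Fin n)} {a : Fin n → ℕ}
    (hb : ∀ i ∉ J, a i < N) (hb' : ∀ i ∉ J, a i < N') :
    ∑ a' ∈ fib N J a (fun _ => 1), Wc f N m a' =
      ∑ a' ∈ fib N' J a (fun _ => 1), Wc f N' m a' := by
  rw [eqm_fib, eqm_fib]
  refine sum_fib_eq hf hnd hm hm' (fun i hi => ?_) (fun i hi => ?_) (fun j hj => ?_)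
    (fun j hj => ?_)
  · simp only [hi, if_false]; exact hb i hi
  · simp only [hi, if_false]; exact hb' i hi
  · simp only [hj, if_true]; omega
  · simp only [hj, if_true]; omega

private theorem eqm_tw (J : Finset (Fin n)) (Z : PowerSeries (RX n)) (z : GG n) :
    tw LU J (cfun (((fac (uX 0 1, 1) : Polynomial (RX n)) : PowerSeries (RX n)) * Z)) z =
      tw LU J (cfun Z) z - qpw LU (-1) * tw LU J (cfun Z) (z - (0, 1)) := by
  have h1 : cfun (((fac (uX 0 1, 1) : Polynomial (RX n)) : PowerSeries (RX n)) * Z) =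
      fun z => cfun Z z + (-qpw LU (-1)) * (fun z => cfun Z (z - ((0, 1) : GG n))) z := by
    funext w
    rw [cfun_fac]
    simp only [Pi.zero_apply, Finset.sum_const_zero, zero_sub, Nat.cast_one]
    ring
  rw [h1, tw_add LU J (cfun_LF Z) (((cfun_LF Z).shift (0, 1)).const_mul (-qpw LU (-1))),
    tw_const_mul LU J _ ((cfun_LF Z).shift (0, 1)), tw_shift]
  ring

/-- **The functional equation.** -/
theorem eq_main_face (hf : f ≠ 0) (hnd : ∀ a : Fin n → ℕ, NondegAt f (face f a (nuf f a))) {K : ℕ}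
    {D : Finset (Fin n)} {q : GG n} (hq2 : 0 < q.2) (hq0 : ∀ i, 0 ≤ q.1 i)
    (hqD : ∀ i ∈ D, q.1 i = 0) (hqK : ∀ i, q.1 i < K * q.2)
    (hqm : ∀ u ∈ f.support, q.2 ≤ dotH u q) {J J₀ : Finset (Fin n)} (hJ : J ⊆ suppG q)
    (hdis : Disj01 (Gk f q) J) (hJ₀ : J₀ ⊆ J) (hDfc : Dfc (Gk f q) J₀) (z : GG n) :
    ∃ l₀ : ℕ, ∀ l ≥ l₀, tw LU J (cfun (((fac (uX 0 1, 1) : Polynomial (RX n)) :
      PowerSeries (RX n)) * ZJx f K D (AddMonoidHom.id _))) (z + l • q) = 0 := by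
  classical
  have hJD : Disjoint J D := by
    rw [Finset.disjoint_left]
    intro i hi hD
    have := hJ hi
    unfold suppG at this
    rw [Finset.mem_filter] at this
    exact this.2 (hqD i hD)
  have h1 : ∀ l : ℕ, ∀ i, (z + l • q).1 i = z.1 i + l * q.1 i := by
    intro l i
    simp [nsmul_eq_mul]
  have h2 : ∀ l : ℕ, (z + l • q).2 = z.2 + l * q.2 := by
    intro l
    simp [nsmul_eq_mul]
  have hK1 : 1 ≤ K := by
    obtain ⟨j, hj⟩ := hDfc.1
    have h3 := hqK j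
    have h0 := hq0 j
    rcases Nat.eq_zero_or_pos K with hK | hK
    · rw [hK, Nat.cast_zero, zero_mul] at h3
      omega
    · exact hK
  by_cases hD : ∃ i ∈ D, z.1 i ≠ 0
  · obtain ⟨i, hi, hzi⟩ := hD
    refine ⟨0, fun l _ => ?_⟩
    have e1 : (z + l • q).1 i ≠ 0 := by rw [h1, hqD i hi]; simpa using hzi
    rw [eqm_tw, tw_ZJx_zero f K hJD (Or.inl ⟨i, hi, e1⟩),
      tw_ZJx_zero f K hJD (Or.inl ⟨i, hi, by simpa using e1⟩)]
    simp
  push Not at hD
  obtain ⟨l₁, hl₁⟩ := eq_tail_face hq2 hq0 hqm hJ hdis (z - (0, 1))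
  refine ⟨l₁ + (z.2.natAbs + 1) + ∑ i, ((z.1 i).natAbs + 1 + K * z.2.natAbs), fun l hl => ?_⟩
  have hll₁ : l₁ ≤ l := by omega
  have hl2 : z.2.natAbs + 1 ≤ l := by omega
  have hl3 : ∀ i, (z.1 i).natAbs + 1 + K * z.2.natAbs ≤ l := by
    intro i
    have := Finset.single_le_sum (f := fun i => (z.1 i).natAbs + 1 + K * z.2.natAbs)
      (fun _ _ => Nat.zero_le _) (Finset.mem_univ i)
    omega
  rw [eqm_tw]
  by_cases hb : ∃ i, i ∉ J ∧ i ∉ D ∧ (z + l • q).1 i < 1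
  · rw [tw_ZJx_zero f K hJD (Or.inr hb), tw_ZJx_zero f K hJD (Or.inr (by simpa using hb))]
    simp
  push Not at hb
  have hM : 1 ≤ (z + l • q).2 := by
    rw [h2]
    have : (l : ℤ) ≤ l * q.2 := by nlinarith
    have h3 : -(z.2.natAbs : ℤ) ≤ z.2 := by omega
    have h4 : (z.2.natAbs : ℤ) + 1 ≤ l := by exact_mod_cast hl2
    linarith
  obtain ⟨m, hm⟩ : ∃ m : ℕ, (z + l • q).2 = m + 1 :=
    ⟨((z + l • q).2 - 1).toNat, by omega⟩
  have hbd : ∀ i, (z + l • q).1 i < K * (m + 1) := by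
    intro i
    have e1 : (m : ℤ) + 1 = z.2 + l * q.2 := by rw [← hm, h2]
    rw [h1, e1]
    have e2 : q.1 i + 1 ≤ K * q.2 := hqK i
    have e3 : ((z.1 i).natAbs : ℤ) + 1 + K * z.2.natAbs ≤ l := by exact_mod_cast hl3 i
    have e4 : z.1 i ≤ (z.1 i).natAbs := by omega
    have e5 : -(K * (z.2.natAbs : ℤ)) ≤ K * z.2 := by
      have : -(z.2.natAbs : ℤ) ≤ z.2 := by omega
      have hK0 : (0 : ℤ) ≤ K := by positivity
      nlinarith
    have e6 : (l : ℤ) * (q.1 i + 1) ≤ l * (K * q.2) := by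
      have hl0 : (0 : ℤ) ≤ l := by positivity
      nlinarith
    nlinarith
  have hpos : ∀ i ∉ J, 0 ≤ (z + l • q).1 i := by
    intro i hi
    by_cases hiD : i ∈ D
    · rw [h1, hD i hiD, hqD i hiD]; simp
    · have := hb i hi hiD
      omega
  have hDz : ∀ i ∈ D, (z + l • q).1 i = 0 := by
    intro i hi
    rw [h1, hD i hi, hqD i hi]; simp
  set a : Fin n → ℕ := fun i => ((z + l • q).1 i).toNat with ha
  have haz : ∀ i ∉ J, (a i : ℤ) = (z + l • q).1 i := by
    intro i hi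
    simp only [ha]
    exact Int.toNat_of_nonneg (hpos i hi)
  have hsub1 : ∀ w : GG n, (w - (0, 1)).1 = w.1 := by intro w; simp
  have hsub : (z + l • q) - (0, 1) = (z - (0, 1)) + l • q := by abel
  -- the two twisted sums
  have hA : tw LU J (cfun (ZJx f K D (AddMonoidHom.id _))) (z + l • q) =
      qpw LU (∑ i, (z + l • q).1 i) * ∑ a' ∈ fib (K * (m + 1 + 1)) J a (fun _ => 1),
        Wc f (K * (m + 1 + 1)) (m + 1) a' := by
    refine tw_ZJx f K hJD (by rw [hm]; push_cast; ring) hDz (fun i hi hiD => ⟨hb i hi hiD, ?_⟩)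
    have := hbd i
    have hK0 : (0 : ℤ) ≤ K := by positivity
    push_cast
    nlinarith
  have hB : tw LU J (cfun (ZJx f K D (AddMonoidHom.id _))) (z + l • q - (0, 1)) =
      qpw LU (∑ i, (z + l • q).1 i) * ∑ a' ∈ fib (K * (m + 1)) J a (fun _ => 1),
        Wc f (K * (m + 1)) m a' := by
    have := tw_ZJx f K (J := J) (D := D) hJD (z := z + l • q - (0, 1)) (m := m)
      (by simp only [Prod.snd_sub, hm]; ring)
      (by intro i hi; rw [hsub1]; exact hDz i hi)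
      (fun i hi hiD => by
        rw [hsub1]
        exact ⟨hb i hi hiD, (hbd i).le⟩)
    rw [this, hsub1]
  rw [hA, hB]
  -- common cap
  have haN : ∀ i ∉ J, a i < K * (m + 1) := by
    intro i hi
    have e1 := haz i hi
    have e2 := hbd i
    rw [← e1] at e2
    exact_mod_cast e2
  have hKm : m + 1 ≤ K * (m + 1) := Nat.le_mul_of_pos_left _ hK1
  have hKm' : K * (m + 1) ≤ K * (m + 1 + 1) := Nat.mul_le_mul_left _ (by omega)
  have hKm2 : m + 2 ≤ K * (m + 1 + 1) := Nat.le_mul_of_pos_left _ hK1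
  have c1 := eqm_cap hf hnd (N := K * (m + 1 + 1)) (N' := K * (m + 1 + 1) + m + 3)
    (m := m + 1) (J := J) (a := a) (by omega) (by omega)
    (fun i hi => lt_of_lt_of_le (haN i hi) hKm')
    (fun i hi => by have := haN i hi; omega)
  have c2 := eqm_cap hf hnd (N := K * (m + 1)) (N' := K * (m + 1 + 1) + m + 3)
    (m := m) (J := J) (a := a) (by omega) (by omega) haN
    (fun i hi => by have := haN i hi; omega)
  rw [c1, c2]
  obtain ⟨α, hα1, hα2, hα3, hP, hfa⟩ := hl₁ l hll₁ (by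
      intro i hi; rw [← hsub, hsub1]; exact hpos i hi) a m
    (by intro i hi; rw [← hsub, hsub1]; exact haz i hi)
    (by rw [← hsub, Prod.snd_sub, hm]; ring)
  have hα4 : ∀ x : Fin n → ℂ, (∀ i, x i ≠ 0) →
      ∃ j ∈ J, eval x (pderiv j (inForm f
        (Pjm f J (fun i => if i ∈ J then m - α i else a i) m j))) ≠ 0 := by
    intro x hx
    obtain ⟨j, hj, h⟩ := ncz_face (G := Gk f q) hDfc
      (Pjm f J (fun i => if i ∈ J then m - α i else a i) m)
      (fun J₁ hJ₁ hne₁ => by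
        obtain ⟨a', -, -, h⟩ := hfa J₁ (hJ₁.trans hJ₀) hne₁
        rw [h]
        exact hnd a')
      (fun j hj => hP j (hJ₀ hj)) x hx
    exact ⟨j, hJ₀ hj, h⟩
  have key := eq_cap hf hnd (N := K * (m + 1 + 1) + m + 3) (m := m) (by omega) (J := J) (a := a)
    (α := α) (fun i hi => by have := haN i hi; omega) hα1 hα2 hα3 hα4
  rw [key]
  unfold qpw
  ring
/-- the special exponents of a column -/
private theorem fin_col {F : Finset (GG n)} (hF : F ∈ Fl f D s₀) {U : Finset (Fin n)}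
    (hU : Disj01 (Gk f (∑ k ∈ F, k)) U) :
    ∀ j ∈ U, ∃ u ∈ f.support, (∀ k ∈ F, dotH u k = k.2) ∧ u j = 1 ∧
      ∀ i ∈ U, i ≠ j → u i = 0 := by
  classical
  intro j hj
  obtain ⟨u, hu, huj⟩ := hU.2 j hj
  have h1 := (mem_Gk_sum hF).1 hu
  refine ⟨u, h1.1, h1.2, huj, fun i hi hij => ?_⟩
  have h2 := hU.1 u hu
  rw [← Finset.add_sum_erase U (fun j => u j) hj] at h2
  have h3 : u i ≤ ∑ i ∈ U.erase j, u i :=
    Finset.single_le_sum (f := fun i => u i) (fun _ _ => Nat.zero_le _)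
      (Finset.mem_erase.2 ⟨hij, hi⟩)
  omega

/-- the property of vanishing far away is stable under multiplication by a factor -/
private theorem fin_fac (J : Finset (Fin n)) (q : GG n) {Y : PowerSeries (RX n)}
    (hY : ∀ z, ∃ l₀ : ℕ, ∀ l ≥ l₀, tw LU J (cfun Y) (z + l • q) = 0) {w : (RX n)ˣ × ℕ}
    (hw : w ∈ OH n s₀) : ∀ z, ∃ l₀ : ℕ, ∀ l ≥ l₀,
      tw LU J (cfun (((fac w : Polynomial (RX n)) : PowerSeries (RX n)) * Y)) (z + l • q) = 0 := by
  intro z
  obtain ⟨γ, e, b, rfl, -⟩ := hw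
  obtain ⟨l₁, hl₁⟩ := hY z
  obtain ⟨l₂, hl₂⟩ := hY (z - ((γ, (b : ℤ)) : GG n))
  refine ⟨l₁ + l₂, fun l hl => ?_⟩
  have h1 : cfun (((fac (uX γ e, b) : Polynomial (RX n)) : PowerSeries (RX n)) * Y) =
      fun z => cfun Y z + (-qpw LU (∑ i, γ i - e)) * cfun Y (z - ((γ, (b : ℤ)) : GG n)) := by
    funext z
    rw [cfun_fac]
    ring
  rw [h1, tw_add LU J (cfun_LF Y) (((cfun_LF Y).shift _).const_mul _),
    tw_const_mul LU J _ ((cfun_LF Y).shift _), tw_shift, hl₁ l (by omega)]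
  have h2 : z + l • q - ((γ, (b : ℤ)) : GG n) = z - ((γ, (b : ℤ)) : GG n) + l • q := by abel
  rw [h2, hl₂ l (by omega), mul_zero, add_zero]

private theorem fin_prod (J : Finset (Fin n)) (q : GG n) {Y : PowerSeries (RX n)}
    (hY : ∀ z, ∃ l₀ : ℕ, ∀ l ≥ l₀, tw LU J (cfun Y) (z + l • q) = 0)
    (s : Multiset ((RX n)ˣ × ℕ)) (hs : ∀ w ∈ s, w ∈ OH n s₀) : ∀ z, ∃ l₀ : ℕ, ∀ l ≥ l₀,
      tw LU J (cfun ((((s.map fac).prod : Polynomial (RX n)) : PowerSeries (RX n)) * Y))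
        (z + l • q) = 0 := by
  induction s using Multiset.induction_on with
  | empty =>
    rw [Multiset.map_zero, Multiset.prod_zero, Polynomial.coe_one, one_mul]
    exact hY
  | cons w s ih =>
    rw [Multiset.map_cons, Multiset.prod_cons, Polynomial.coe_mul, mul_assoc]
    exact fin_fac J q (ih fun w hw => hs w (Multiset.mem_cons_of_mem hw))
      (hs w (Multiset.mem_cons_self w s))

/-- **The pole side in all dimensions**: if every chosen vector that contributes the candidate pole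
has a conflict-free deficit, then the part `D` of the zeta function is regular at `s₀`. -/
theorem ZJm_regular_face {f : MvPolynomial (Fin n) ℂ} (hf : f ≠ 0)
    (hnd : ∀ a : Fin n → ℕ, NondegAt f (face f a (nuf f a))) {s₀ : ℚ} (h1 : s₀ ≠ -1) {K : ℕ}
    (hK : -s₀ < K) {D : Finset (Fin n)} (Jl : GG n → Finset (Fin n))
    (hJl : ∀ k, IsB f D s₀ k → ConfFree (Gk f k) (suppG k) (Jl k)) :
    ZJm f K D ∈ regularAt s₀ := by
  classical
  obtain ⟨s, K₀, A, hs, hK₀, hA⟩ := ZJx_dec hf h1 hK (D := D)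
  obtain ⟨𝓢, h𝓢⟩ := exists_labels Jl hJl
  set 𝒦 : Finset (Finset (GG n)) := K₀.biUnion Finset.powerset with h𝒦
  have hmem : ∀ F, F ∈ 𝒦 ↔ ∃ F' ∈ K₀, F ⊆ F' := by
    intro F
    rw [h𝒦, Finset.mem_biUnion]
    simp only [Finset.mem_powerset]
  have hFl : ∀ F ∈ 𝒦, F ∈ Fl f D s₀ := by
    intro F hF
    obtain ⟨F', hF', hs⟩ := (hmem F).1 hF
    exact Fl.subset (hK₀ F' hF') hs
  have hsub : K₀ ⊆ 𝒦 := fun F hF => (hmem F).2 ⟨F, hF, subset_rfl⟩
  set Z := ZJx f K D (AddMonoidHom.id _) with hZ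
  set P : PowerSeries (RX n) := (((s.map fac).prod : Polynomial (RX n)) : PowerSeries (RX n))
    with hP
  -- the functional vectors
  have hpos : ∀ F ∈ 𝒦, ∀ k ∈ F, 0 < k.2 := fun F hF k hk => ((hFl F hF).1 k hk).pos
  -- the labels
  have hU : ∀ F ∈ 𝒦, F.Nonempty → ∃ U, U ⊆ suppG (∑ k ∈ F, k) ∧
      Disj01 (Gk f (∑ k ∈ F, k)) U ∧ ∀ J ∈ 𝓢 F, J ⊆ U := fun F hF hne =>
    (h𝓢 F (hFl F hF) hne).2.1
  choose! U hU using hU
  have hJdis : ∀ F ∈ 𝒦, F.Nonempty → ∀ J ∈ 𝓢 F, Disj01 (Gk f (∑ k ∈ F, k)) J := by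
    intro F hF hne J hJ
    obtain ⟨-, h2, h3⟩ := hU F hF hne
    exact h2.mono subset_rfl (h3 J hJ) fun j hj => by
      obtain ⟨u, hu, huj⟩ := h2.2 j (h3 J hJ hj)
      exact ⟨u, hu, by rw [huj]; exact one_ne_zero⟩
  -- the decomposition
  set c : Mot := qpw LU (∑ i, (0 : Fin n → ℤ) i - 1) with hc
  set A₀ : Finset (GG n) → (GG n →₀ Mot) := fun F => if F ∈ K₀ then A F else 0 with hA₀
  set A₁ : Finset (GG n) → (GG n →₀ Mot) := fun F =>
    A₀ F + (-c) • shG ((0, ((1 : ℕ) : ℤ)) : GG n) (A₀ F) with hA₁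
  set Y : PowerSeries (RX n) :=
    ((fac (uX 0 1, 1) : Polynomial (RX n)) : PowerSeries (RX n)) * (P * Z) with hY
  have hA₀s : ∀ z, cfun (P * Z) z = ∑ F ∈ 𝒦, GF F (A₀ F) z := by
    intro z
    rw [hP, hA z]
    have h2 : ∑ F ∈ K₀, GF F (A F) z = ∑ F ∈ K₀, GF F (A₀ F) z :=
      Finset.sum_congr rfl fun F hF => by rw [hA₀]; simp only [if_pos hF]
    rw [h2]
    refine Finset.sum_subset hsub fun F _ hF => ?_
    rw [hA₀]
    simp only [if_neg hF]
    exact GF_zero F z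
  have hφ : ∀ z, cfun Y z = ∑ F ∈ 𝒦, GF F (A₁ F) z := by
    intro z
    rw [hY, cfun_fac, hA₀s z, hA₀s, Finset.mul_sum, ← Finset.sum_sub_distrib]
    refine Finset.sum_congr rfl fun F _ => ?_
    rw [hA₁]
    simp only
    rw [GF_add, GF_smul, GF_shG, ← hc]
    ring
  have hYP : Y = P * (((fac (uX 0 1, 1) : Polynomial (RX n)) : PowerSeries (RX n)) * Z) := by
    rw [hY]
    ring
  obtain ⟨M, hM⟩ := patch LU 𝒦 (fun F hF F' hs => by
      obtain ⟨F'', hF'', hs'⟩ := (hmem F).1 hF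
      exact (hmem F').2 ⟨F'', hF'', hs.trans hs'⟩) hpos 𝓢 U
    (fun F hF hne J hJ => (hU F hF hne).2.2 J hJ)
    (fun F hF hne => Fl.ind (hFl F hF) (fin_col (hFl F hF) (hU F hF hne).2.1))
    (fun F hF hne => (h𝓢 F (hFl F hF) hne).1)
    (fun F hF F' hs hne J' hJ' => (h𝓢 F (hFl F hF) (hne.mono hs)).2.2.2 F' hs hne J' hJ')
    (fun F hF hne J hJ F' hF' hFF' z => Fl.h3 (hFl F hF) (hFl F' hF') hFF'
      (fin_col (hFl F hF) (hJdis F hF hne J hJ)) z)
    (cfun Y) A₁ hφ (fun F hF hne J hJ => by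
      rw [hYP]
      refine fin_prod J _ (fun z => ?_) s fun w hw => (hs w hw).1
      obtain ⟨J₀, hJ₀, hD₀⟩ := (h𝓢 F (hFl F hF) hne).2.2.1 J hJ
      have hcar := fun k hk => ((hFl F hF).1 k hk).mem
      have h2 : ∀ i, (∑ k ∈ F, k : GG n).1 i = ∑ k ∈ F, k.1 i := by
        intro i
        rw [Prod.fst_sum, Finset.sum_apply]
      have h3 : (∑ k ∈ F, k : GG n).2 = ∑ k ∈ F, k.2 := Prod.snd_sum
      have h0 : ∀ i, 0 ≤ (∑ k ∈ F, k : GG n).1 i := by
        intro i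
        rw [h2]
        exact Finset.sum_nonneg fun k hk => (hcar k hk).1 i
      have h2pos : 0 < (∑ k ∈ F, k : GG n).2 := by
        rw [h3]
        exact Finset.sum_pos (fun k hk => hpos F hF k hk) hne
      refine eq_main_face hf hnd h2pos h0 ?_ ?_ ?_ (((hU F hF hne).2.2 J hJ).trans (hU F hF hne).1)
        (hJdis F hF hne J hJ) hJ₀ hD₀ z
      · intro i hi
        rw [h2]
        exact Finset.sum_eq_zero fun k hk => ((hFl F hF).1 k hk).zero i hi
      · intro i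
        have h4 : (∑ k ∈ F, k : GG n).1 i ≤ ∑ i, (∑ k ∈ F, k : GG n).1 i :=
          Finset.single_le_sum (f := fun i => (∑ k ∈ F, k : GG n).1 i) (fun i _ => h0 i)
            (Finset.mem_univ i)
        have h5 : ((∑ i, (∑ k ∈ F, k : GG n).1 i : ℤ) : ℚ) =
            -s₀ * ((∑ k ∈ F, k : GG n).2 : ℤ) := by
          rw [h3]
          simp only [h2]
          rw [Finset.sum_comm]
          push_cast
          rw [Finset.mul_sum]
          refine Finset.sum_congr rfl fun k hk => ?_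
          have h6 := ((hFl F hF).1 k hk).s0 k (hcar k hk)
          push_cast at h6
          exact h6
        have h6 : (((∑ k ∈ F, k : GG n).1 i : ℤ) : ℚ) ≤
            ((∑ i, (∑ k ∈ F, k : GG n).1 i : ℤ) : ℚ) := by exact_mod_cast h4
        have h7 : (0 : ℚ) < (((∑ k ∈ F, k : GG n).2 : ℤ) : ℚ) := by exact_mod_cast h2pos
        have h8 : (((∑ k ∈ F, k : GG n).1 i : ℤ) : ℚ) <
            (K : ℚ) * (((∑ k ∈ F, k : GG n).2 : ℤ) : ℚ) := by
          rw [h5] at h6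
          nlinarith
        exact_mod_cast h8
      · intro u hu
        rw [map_sum, h3]
        exact Finset.sum_le_sum fun k hk => (hcar k hk).2.2.1 u hu)
  -- the conclusion
  have h2 := regular_of_tw ((uX 0 1, 1) ::ₘ s) (s₀ := s₀) (fun w hw => by
    rcases Multiset.mem_cons.1 hw with rfl | hw
    · refine ⟨⟨0, 1, 1, rfl, ?_⟩, one_pos⟩
      intro h
      apply h1
      push_cast at h
      linarith
    · exact hs w hw) Z M (fun z hz => by
    rw [Multiset.map_cons, Multiset.prod_cons, Polynomial.coe_mul, mul_assoc, ← hP, ← hY]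
    exact hM z hz)
  rwa [hZ, map_augX_ZJx] at h2

end MPb07157P
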