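import Pool.Agent.Lib.MP_b07157_ag.PS.Main
import Pool.Agent.Lib.MP_b07157_agP.P1a

/-!
# P1c. The local pole side, for polynomials which are non-degenerate on their compact faces
-/

noncomputable section

namespace MPb07157P.Loc

open MvPolynomial Finset MPb07157

variable {n : ℕ} {f : MvPolynomial (Fin n) ℂ}

private theorem mem_fib {N : ℕ} {J : Finset (Fin n)} {a b c : Fin n → ℕ} :
    c ∈ fib N J a b ↔ (∀ i ∉ J, c i = a i) ∧ ∀ j ∈ J, b j ≤ c j ∧ c j ≤ N := by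
  unfold fib
  rw [Fintype.mem_piFinset]
  constructor
  · intro h
    refine ⟨fun i hi => ?_, fun j hj => ?_⟩
    · have := h i
      rw [if_neg hi] at this
      exact Finset.mem_singleton.1 this
    · have := h j
      rw [if_pos hj] at this
      exact Finset.mem_Icc.1 this
  · rintro ⟨h1, h2⟩ j
    split_ifs with hj
    · exact Finset.mem_Icc.2 (h2 j hj)
    · exact Finset.mem_singleton.2 (h1 j hj)

private theorem lead0_congr {N : ℕ} {a b : Fin n → ℕ} (γ : Fin n × Fin N → ℂ) {i : Fin n}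
    (h : a i = b i) : lead0 a γ i = lead0 b γ i := by
  unfold lead0
  by_cases hi : a i < N
  · have hi' : b i < N := h ▸ hi
    rw [dif_pos hi, dif_pos hi']
    congr 2
    exact Fin.ext h
  · have hi' : ¬ b i < N := h ▸ hi
    rw [dif_neg hi, dif_neg hi']

private theorem arcs_QS_eq (f : MvPolynomial (Fin n) ℂ) {N : ℕ} (m : ℕ) {J : Finset (Fin n)}
    {b : Fin n → ℕ} (hb : ∀ i ∉ J, b i < N) (hbJ : ∀ j ∈ J, b j ≤ N) :
    arcs f N m ∩ QS N J b = ⋃ a ∈ fib N J b b, (arcs f N m ∩ Strat N a) := by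
  classical
  ext γ
  simp only [Set.mem_inter_iff, Set.mem_iUnion, exists_prop, mem_fib]
  constructor
  · rintro ⟨h1, h2, h3⟩
    have hex : ∀ j : Fin n, ∃ k : ℕ, k = N ∨ ∃ h : k < N, γ (j, ⟨k, h⟩) ≠ 0 :=
      fun j => ⟨N, Or.inl rfl⟩
    have hle : ∀ j, b j ≤ N := by
      intro j
      by_cases hj : j ∈ J
      · exact hbJ j hj
      · exact (hb j hj).le
    have hge : ∀ j, b j ≤ Nat.find (hex j) := by
      intro j
      rw [Nat.le_find_iff]
      rintro k hk (h4 | ⟨h4, h5⟩)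
      · have := hle j
        omega
      · exact h5 (h2 j ⟨k, h4⟩ hk)
    refine ⟨fun j => Nat.find (hex j), ⟨fun i hi => ?_, fun j hj => ?_⟩, h1, ?_, ?_⟩
    · refine le_antisymm (Nat.find_min' (hex i) (Or.inr ⟨hb i hi, ?_⟩)) (hge i)
      have h4 := h3 i hi
      unfold lead0 at h4
      rwa [dif_pos (hb i hi)] at h4
    · exact ⟨hge j, Nat.find_min' (hex j) (Or.inl rfl)⟩
    · intro j k hk
      by_contra hne
      exact Nat.find_min (hex j) hk (Or.inr ⟨k.2, hne⟩)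
    · intro j hj
      have h4 := Nat.find_spec (hex j)
      rcases h4 with h4 | ⟨h4, h5⟩
      · beta_reduce at hj
        rw [h4] at hj
        exact absurd hj (lt_irrefl _)
      · unfold lead0
        rw [dif_pos hj]
        exact h5
  · rintro ⟨a, ⟨h1, h2⟩, h3, h4, h5⟩
    refine ⟨h3, fun j k hk => h4 j k ?_, fun i hi => ?_⟩
    · by_cases hj : j ∈ J
      · exact lt_of_lt_of_le hk (h2 j hj).1
      · rw [h1 j hj]
        exact hk
    · rw [← lead0_congr γ (h1 i hi)]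
      exact h5 i (by rw [h1 i hi]; exact hb i hi)

/-- The measure of the arcs with `ord f = m` and with orders prescribed outside `J`. -/
theorem sum_fib_Wc (hf : f ≠ 0)
    (hnd : ∀ a : Fin n → ℕ, (∀ i, 0 < a i) → NondegAt f (face f a (nuf f a)))
    {N m : ℕ} (hm : m < N) {J : Finset (Fin n)} {b : Fin n → ℕ} (hbp : ∀ i, 0 < b i)
    (hb : ∀ i ∉ J, b i < N)
    (hbJ : ∀ j ∈ J, b j ≤ N) :
    ∑ a ∈ fib N J b b, Wc f N m a =
      ↑((LU ^ (n * N))⁻¹) * clsM (arcs f N m ∩ QS N J b) := by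
  classical
  have hle : ∀ a ∈ fib N J b b, ∀ j, a j ≤ N := by
    intro a ha j
    rw [mem_fib] at ha
    by_cases hj : j ∈ J
    · exact (ha.2 j hj).2
    · rw [ha.1 j hj]
      exact (hb j hj).le
  have h1 : clsM (arcs f N m ∩ QS N J b) = ∑ a ∈ fib N J b b, clsM (arcs f N m ∩ Strat N a) := by
    unfold clsM
    rw [arcs_QS_eq f m hb hbJ, cls_biUnion, map_sum]
    · intro a _
      exact (isConstr_arcs f N m).inter (isConstr_Strat N a)
    · intro a ha c hc hac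
      exact (disjoint_Strat (hle a ha) (hle c hc) hac).mono Set.inter_subset_right
        Set.inter_subset_right
  rw [h1, Finset.mul_sum]
  refine Finset.sum_congr rfl fun a ha => ?_
  rw [clsM_stratum hf hm (hle a ha) (hnd a fun i => ?_)]
  · unfold Wc c0 c1
    rfl
  · rw [mem_fib] at ha
    by_cases hi : i ∈ J
    · exact lt_of_lt_of_le (hbp i) (ha.2 i hi).1
    · rw [ha.1 i hi]
      exact hbp i

/-- Independence of the truncation level. -/
theorem sum_fib_succ (hf : f ≠ 0)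
    (hnd : ∀ a : Fin n → ℕ, (∀ i, 0 < a i) → NondegAt f (face f a (nuf f a)))
    {N m : ℕ} (hm : m < N) {J : Finset (Fin n)} {b : Fin n → ℕ} (hbp : ∀ i, 0 < b i)
    (hb : ∀ i ∉ J, b i < N)
    (hbJ : ∀ j ∈ J, b j ≤ N) :
    ∑ a ∈ fib (N + 1) J b b, Wc f (N + 1) m a = ∑ a ∈ fib N J b b, Wc f N m a := by
  rw [sum_fib_Wc (N := N + 1) hf hnd (by omega) hbp (fun i hi => by have := hb i hi; omega)
    (fun j hj => by have := hbJ j hj; omega), sum_fib_Wc hf hnd hm hbp hb hbJ]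
  have hle : ∀ j, b j ≤ N := by
    intro j
    by_cases hj : j ∈ J
    · exact hbJ j hj
    · exact (hb j hj).le
  have h : arcs f (N + 1) m ∩ QS (N + 1) J b = {γ : Fin n × Fin (N + 1) → ℂ |
      leftPart γ ∈ arcs f N m ∩ QS N J b ∧
      rightPart γ ∈ (Set.univ : Set (Fin n × Fin 1 → ℂ))} := by
    rw [arcs_succ f hm]
    ext γ
    simp only [Set.mem_inter_iff, Set.mem_ofPred_eq, Set.mem_univ, and_true]
    refine and_congr_right fun _ => ⟨?_, ?_⟩
    · rintro ⟨h1, h2⟩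
      refine ⟨fun j k hk => h1 j (Fin.castAdd 1 k) hk, fun i hi => ?_⟩
      have h3 := h2 i hi
      unfold lead0 at h3 ⊢
      rw [dif_pos (Nat.lt_succ_of_lt (hb i hi))] at h3
      rw [dif_pos (hb i hi)]
      exact h3
    · rintro ⟨h1, h2⟩
      refine ⟨fun j k hk => ?_, fun i hi => ?_⟩
      · have := h1 j ⟨k, by have := hle j; omega⟩ hk
        exact this
      · have h3 := h2 i hi
        unfold lead0 at h3 ⊢
        rw [dif_pos (hb i hi)] at h3
        rw [dif_pos (Nat.lt_succ_of_lt (hb i hi))]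
        exact h3
  rw [h, clsM_mul_eq (cls_split ((isConstr_arcs f N m).inter (isConstr_QS N J b))
    IsConstr.univ), clsM_univ]
  simp only [Fintype.card_prod, Fintype.card_fin, mul_one, mul_add, pow_add, mul_inv,
    Units.val_mul]
  rw [mul_comm (clsM _), mul_assoc, ← mul_assoc (((LU ^ n)⁻¹ : Motˣ) : Mot), Units.inv_mul,
    one_mul]

private theorem sum_fib_add (hf : f ≠ 0)
    (hnd : ∀ a : Fin n → ℕ, (∀ i, 0 < a i) → NondegAt f (face f a (nuf f a)))
    {N m : ℕ} (hm : m < N) {J : Finset (Fin n)} {b : Fin n → ℕ} (hbp : ∀ i, 0 < b i)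
    (hb : ∀ i ∉ J, b i < N)
    (hbJ : ∀ j ∈ J, b j ≤ N) (k : ℕ) :
    ∑ a ∈ fib (N + k) J b b, Wc f (N + k) m a = ∑ a ∈ fib N J b b, Wc f N m a := by
  induction k with
  | zero => rfl
  | succ k ih =>
    rw [← ih]
    exact sum_fib_succ hf hnd (N := N + k) (by omega) hbp (fun i hi => by have := hb i hi; omega)
      (fun j hj => by have := hbJ j hj; omega)

theorem sum_fib_eq (hf : f ≠ 0)
    (hnd : ∀ a : Fin n → ℕ, (∀ i, 0 < a i) → NondegAt f (face f a (nuf f a)))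
    {N N' m : ℕ} (hm : m < N) (hm' : m < N') {J : Finset (Fin n)} {b : Fin n → ℕ}
    (hbp : ∀ i, 0 < b i)
    (hb : ∀ i ∉ J, b i < N) (hb' : ∀ i ∉ J, b i < N') (hbJ : ∀ j ∈ J, b j ≤ N)
    (hbJ' : ∀ j ∈ J, b j ≤ N') :
    ∑ a ∈ fib N J b b, Wc f N m a = ∑ a ∈ fib N' J b b, Wc f N' m a := by
  rcases le_total N N' with h | h
  · obtain ⟨k, rfl⟩ := Nat.exists_eq_add_of_le h
    exact (sum_fib_add hf hnd hm hbp hb hbJ k).symm
  · obtain ⟨k, rfl⟩ := Nat.exists_eq_add_of_le h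
    exact sum_fib_add hf hnd hm' hbp hb' hbJ' k
private theorem Wc_succ {N m : ℕ} {a : Fin n → ℕ} (h : nuf f a < m) :
    Wc f N (m + 1) a = ((LU ^ (-1 : ℤ) : Motˣ) : Mot) * Wc f N m a := by
  unfold Wc
  rw [if_neg (by omega), if_pos (by omega), if_neg (by omega), if_pos h]
  have e : (m + 1 - nuf f a : ℕ) = (m - nuf f a) + 1 := by omega
  rw [e, mul_left_comm, ← Units.val_mul, ← zpow_add]
  have e2 : (-((∑ j, a j : ℕ) + ((m - nuf f a + 1 : ℕ)) : ℤ)) =
      -1 + -((∑ j, a j : ℕ) + (m - nuf f a : ℕ) : ℤ) := by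
    push_cast
    ring
  rw [e2]

private theorem nuf_lt (hf : f ≠ 0) {m : ℕ} {J : Finset (Fin n)} {a α c : Fin n → ℕ} {j : Fin n}
    (hj : j ∈ J) (hc : ∀ i ∉ J, c i = a i)
    (h1 : ∃ u ∈ f.support, u j = 1 ∧ (∀ i ∈ J, i ≠ j → u i = 0) ∧
      ∑ i ∈ Jᶜ, a i * u i = α j) (h2 : c j + α j < m) : nuf f c < m := by
  obtain ⟨u, hu, hu1, hu2, hu3⟩ := h1
  have h3 := (isMinWt_nuf hf c).1 u hu
  have h4 : wt c u = c j + α j := by
    unfold wt
    rw [← Finset.sum_add_sum_compl J]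
    congr 1
    · rw [Finset.sum_eq_single_of_mem j hj]
      · rw [hu1, mul_one]
      · intro i hi hij
        rw [hu2 i hi hij, mul_zero]
    · rw [← hu3]
      refine Finset.sum_congr rfl fun i hi => ?_
      rw [hc i (Finset.mem_compl.1 hi)]
  omega

private theorem sum_core (hf : f ≠ 0)
    (hnd : ∀ a : Fin n → ℕ, (∀ i, 0 < a i) → NondegAt f (face f a (nuf f a)))
    {N m : ℕ} (hm : m + 1 < N) {J : Finset (Fin n)} {b : Fin n → ℕ} (hbp : ∀ i, 0 < b i)
    (hb : ∀ i ∉ J, b i < N)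
    (hbJ : ∀ j ∈ J, b j + 1 < N)
    (hH : ∀ u ∈ f.support, (∃ j ∈ J, u j ≠ 0) → m < wt b u ∨ ∃ j ∈ J, u ∈ Pjm f J b m j)
    (hN : ∀ x : Fin n → ℂ, (∀ i, x i ≠ 0) →
      ∃ j ∈ J, eval x (pderiv j (inForm f (Pjm f J b m j))) ≠ 0) :
    ∑ c ∈ fib N J b b, Wc f N (m + 1) c =
      ((LU ^ (-1 : ℤ) : Motˣ) : Mot) * ∑ c ∈ fib N J b b, Wc f N m c := by
  have hbJ' : ∀ j ∈ J, b j ≤ N := fun j hj => by have := hbJ j hj; omega
  rw [sum_fib_Wc hf hnd hm hbp hb hbJ', sum_fib_Wc hf hnd (by omega) hbp hb hbJ', mul_left_comm]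
  congr 1
  have h1 := congrArg (algebraMap K0 Mot) (eq_core (f := f) hbJ hH hN)
  rw [map_mul, ← LU_val] at h1
  have h2 : clsM (arcs f N m ∩ QS N J b) = clsM (arcs f N (m + 1) ∩ QS N J b) * (LU : Mot) :=
    h1.symm
  rw [h2, mul_comm (clsM _), ← mul_assoc, ← Units.val_mul, zpow_neg_one, inv_mul_cancel,
    Units.val_one, one_mul]

open Classical in
theorem eq_cap (hf : f ≠ 0)
    (hnd : ∀ a : Fin n → ℕ, (∀ i, 0 < a i) → NondegAt f (face f a (nuf f a)))
    {N m : ℕ} (hm : m + 1 < N) {J : Finset (Fin n)} {a α : Fin n → ℕ} (hap : ∀ i ∉ J, 0 < a i)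
    (ha : ∀ i ∉ J, a i < N)
    (hα : ∀ j ∈ J, α j < m)
    (h1 : ∀ j ∈ J, ∃ u ∈ f.support, u j = 1 ∧ (∀ i ∈ J, i ≠ j → u i = 0) ∧
      ∑ i ∈ Jᶜ, a i * u i = α j)
    (hH : ∀ u ∈ f.support, (∃ j ∈ J, u j ≠ 0) →
      m < wt (fun i => if i ∈ J then m - α i else a i) u ∨
        ∃ j ∈ J, u ∈ Pjm f J (fun i => if i ∈ J then m - α i else a i) m j)
    (hN : ∀ x : Fin n → ℂ, (∀ i, x i ≠ 0) →
      ∃ j ∈ J, eval x (pderiv j (inForm f
        (Pjm f J (fun i => if i ∈ J then m - α i else a i) m j))) ≠ 0) :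
    ∑ a' ∈ fib N J a (fun _ => 1), Wc f N (m + 1) a' =
      ((LU ^ (-1 : ℤ) : Motˣ) : Mot) * ∑ a' ∈ fib N J a (fun _ => 1), Wc f N m a' := by
  set b : Fin n → ℕ := fun i => if i ∈ J then m - α i else a i with hb
  have hbJ : ∀ j ∈ J, b j = m - α j := fun j hj => by rw [hb]; exact if_pos hj
  have hbc : ∀ i ∉ J, b i = a i := fun i hi => by rw [hb]; exact if_neg hi
  have hset : (fib N J a fun _ => 1).filter (fun c => ∀ j ∈ J, b j ≤ c j) = fib N J b b := by
    ext c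
    rw [Finset.mem_filter, mem_fib, mem_fib]
    constructor
    · rintro ⟨⟨h2, h3⟩, h4⟩
      exact ⟨fun i hi => by rw [h2 i hi, hbc i hi], fun j hj => ⟨h4 j hj, (h3 j hj).2⟩⟩
    · rintro ⟨h2, h3⟩
      refine ⟨⟨fun i hi => by rw [h2 i hi, hbc i hi], fun j hj => ⟨?_, (h3 j hj).2⟩⟩,
        fun j hj => (h3 j hj).1⟩
      have h4 := (h3 j hj).1
      rw [hbJ j hj] at h4
      have h5 := hα j hj
      omega
  rw [← Finset.sum_filter_add_sum_filter_not (fib N J a fun _ => 1)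
      (fun c => ∀ j ∈ J, b j ≤ c j) (fun c => Wc f N (m + 1) c),
    ← Finset.sum_filter_add_sum_filter_not (fib N J a fun _ => 1)
      (fun c => ∀ j ∈ J, b j ≤ c j) (fun c => Wc f N m c), mul_add, hset]
  congr 1
  · refine sum_core hf hnd hm (fun i => ?_) (fun i hi => by rw [hbc i hi]; exact ha i hi)
      (fun j hj => ?_) hH hN
    · by_cases hi : i ∈ J
      · rw [hbJ i hi]
        exact Nat.sub_pos_of_lt (hα i hi)
      · rw [hbc i hi]
        exact hap i hi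
    rw [hbJ j hj]
    omega
  · rw [Finset.mul_sum]
    refine Finset.sum_congr rfl fun c hc => ?_
    rw [Finset.mem_filter, mem_fib] at hc
    obtain ⟨⟨h2, h3⟩, h4⟩ := hc
    push Not at h4
    obtain ⟨j, hj, h5⟩ := h4
    rw [hbJ j hj] at h5
    exact Wc_succ (nuf_lt hf hj h2 (h1 j hj) (by omega))
open Classical in
private theorem eqm_fib (N : ℕ) (J : Finset (Fin n)) (a : Fin n → ℕ) :
    fib N J a (fun _ => 1) =
      fib N J (fun i => if i ∈ J then 1 else a i) (fun i => if i ∈ J then 1 else a i) := by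
  unfold fib
  congr 1
  funext i
  by_cases hi : i ∈ J
  · simp [hi]
  · simp [hi]

open Classical in
private theorem eqm_cap (hf : f ≠ 0)
    (hnd : ∀ a : Fin n → ℕ, (∀ i, 0 < a i) → NondegAt f (face f a (nuf f a)))
    {N N' m : ℕ} (hm : m < N) (hm' : m < N') {J : Finset (Fin n)} {a : Fin n → ℕ}
    (hap : ∀ i ∉ J, 0 < a i)
    (hb : ∀ i ∉ J, a i < N) (hb' : ∀ i ∉ J, a i < N') :
    ∑ a' ∈ fib N J a (fun _ => 1), Wc f N m a' =
      ∑ a' ∈ fib N' J a (fun _ => 1), Wc f N' m a' := by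
  rw [eqm_fib, eqm_fib]
  refine sum_fib_eq hf hnd hm hm' (fun i => ?_) (fun i hi => ?_) (fun i hi => ?_)
    (fun j hj => ?_) (fun j hj => ?_)
  · by_cases hi : i ∈ J
    · simp only [hi, if_true]; omega
    · simp only [hi, if_false]; exact hap i hi
  · simp only [hi, if_false]; exact hb i hi
  · simp only [hi, if_false]; exact hb' i hi
  · simp only [hj, if_true]; omega
  · simp only [hj, if_true]; omega

private theorem eqm_tw (J : Finset (Fin n)) (Z : PowerSeries (RX n)) (z : GG n) :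
    tw LU J (cfun (((fac (uX 0 1, 1) : Polynomial (RX n)) : PowerSeries (RX n)) * Z)) z =
      tw LU J (cfun Z) z - qpw LU (-1) * tw LU J (cfun Z) (z - (0, 1)) := by
  have h1 : cfun (((fac (uX 0 1, 1) : Polynomial (RX n)) : PowerSeries (RX n)) * Z) =
      fun z => cfun Z z + (-qpw LU (-1)) * (fun z => cfun Z (z - ((0, 1) : GG n))) z := by
    funext w
    rw [cfun_fac]
    simp only [Pi.zero_apply, Finset.sum_const_zero, zero_sub, Nat.cast_one]
    ring
  rw [h1, tw_add LU J (cfun_LF Z) (((cfun_LF Z).shift (0, 1)).const_mul (-qpw LU (-1))),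
    tw_const_mul LU J _ ((cfun_LF Z).shift (0, 1)), tw_shift]
  ring

/-- **The functional equation.** -/
theorem eq_main_loc (hf : f ≠ 0)
    (hnd : ∀ a : Fin n → ℕ, (∀ i, 0 < a i) → NondegAt f (face f a (nuf f a))) {K : ℕ} {q : GG n} (hq2 : 0 < q.2) (hq0 : ∀ i, 0 ≤ q.1 i)
    (hqD : ∀ i ∈ (∅ : Finset (Fin n)), q.1 i = 0) (hqK : ∀ i, q.1 i < K * q.2)
    (hqm : ∀ u ∈ f.support, q.2 ≤ dotH u q) {J J₀ : Finset (Fin n)} (hJ : J ⊆ suppG q)
    (hdis : Disj01 (Gk f q) J) (hJ₀ : J₀ ⊆ J) (hDfc : Dfc (Gk f q) J₀) (z : GG n) :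
    ∃ l₀ : ℕ, ∀ l ≥ l₀, tw LU J (cfun (((fac (uX 0 1, 1) : Polynomial (RX n)) :
      PowerSeries (RX n)) * ZJx f K ∅ (AddMonoidHom.id _))) (z + l • q) = 0 := by
  classical
  obtain ⟨D, hDe⟩ : ∃ D : Finset (Fin n), D = ∅ := ⟨_, rfl⟩
  rw [← hDe] at hqD ⊢
  have hJD : Disjoint J D := by
    rw [Finset.disjoint_left]
    intro i hi hD
    have := hJ hi
    unfold suppG at this
    rw [Finset.mem_filter] at this
    exact this.2 (hqD i hD)
  have h1 : ∀ l : ℕ, ∀ i, (z + l • q).1 i = z.1 i + l * q.1 i := by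
    intro l i
    simp [nsmul_eq_mul]
  have h2 : ∀ l : ℕ, (z + l • q).2 = z.2 + l * q.2 := by
    intro l
    simp [nsmul_eq_mul]
  have hK1 : 1 ≤ K := by
    obtain ⟨j, hj⟩ := hDfc.1
    have h3 := hqK j
    have h0 := hq0 j
    rcases Nat.eq_zero_or_pos K with hK | hK
    · rw [hK, Nat.cast_zero, zero_mul] at h3
      omega
    · exact hK
  by_cases hD : ∃ i ∈ D, z.1 i ≠ 0
  · obtain ⟨i, hi, hzi⟩ := hD
    refine ⟨0, fun l _ => ?_⟩
    have e1 : (z + l • q).1 i ≠ 0 := by rw [h1, hqD i hi]; simpa using hzi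
    rw [eqm_tw, tw_ZJx_zero f K hJD (Or.inl ⟨i, hi, e1⟩),
      tw_ZJx_zero f K hJD (Or.inl ⟨i, hi, by simpa using e1⟩)]
    simp
  push Not at hD
  obtain ⟨l₁, hl₁⟩ := eq_tail_face hq2 hq0 hqm hJ hdis (z - (0, 1))
  refine ⟨l₁ + (z.2.natAbs + 1) + ∑ i, ((z.1 i).natAbs + 1 + K * z.2.natAbs), fun l hl => ?_⟩
  have hll₁ : l₁ ≤ l := by omega
  have hl2 : z.2.natAbs + 1 ≤ l := by omega
  have hl3 : ∀ i, (z.1 i).natAbs + 1 + K * z.2.natAbs ≤ l := by
    intro i
    have := Finset.single_le_sum (f := fun i => (z.1 i).natAbs + 1 + K * z.2.natAbs)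
      (fun _ _ => Nat.zero_le _) (Finset.mem_univ i)
    omega
  rw [eqm_tw]
  by_cases hb : ∃ i, i ∉ J ∧ i ∉ D ∧ (z + l • q).1 i < 1
  · rw [tw_ZJx_zero f K hJD (Or.inr hb), tw_ZJx_zero f K hJD (Or.inr (by simpa using hb))]
    simp
  push Not at hb
  have hM : 1 ≤ (z + l • q).2 := by
    rw [h2]
    have : (l : ℤ) ≤ l * q.2 := by nlinarith
    have h3 : -(z.2.natAbs : ℤ) ≤ z.2 := by omega
    have h4 : (z.2.natAbs : ℤ) + 1 ≤ l := by exact_mod_cast hl2
    linarith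
  obtain ⟨m, hm⟩ : ∃ m : ℕ, (z + l • q).2 = m + 1 :=
    ⟨((z + l • q).2 - 1).toNat, by omega⟩
  have hbd : ∀ i, (z + l • q).1 i < K * (m + 1) := by
    intro i
    have e1 : (m : ℤ) + 1 = z.2 + l * q.2 := by rw [← hm, h2]
    rw [h1, e1]
    have e2 : q.1 i + 1 ≤ K * q.2 := hqK i
    have e3 : ((z.1 i).natAbs : ℤ) + 1 + K * z.2.natAbs ≤ l := by exact_mod_cast hl3 i
    have e4 : z.1 i ≤ (z.1 i).natAbs := by omega
    have e5 : -(K * (z.2.natAbs : ℤ)) ≤ K * z.2 := by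
      have : -(z.2.natAbs : ℤ) ≤ z.2 := by omega
      have hK0 : (0 : ℤ) ≤ K := by positivity
      nlinarith
    have e6 : (l : ℤ) * (q.1 i + 1) ≤ l * (K * q.2) := by
      have hl0 : (0 : ℤ) ≤ l := by positivity
      nlinarith
    nlinarith
  have hpos : ∀ i ∉ J, 0 ≤ (z + l • q).1 i := by
    intro i hi
    by_cases hiD : i ∈ D
    · rw [h1, hD i hiD, hqD i hiD]; simp
    · have := hb i hi hiD
      omega
  have hDz : ∀ i ∈ D, (z + l • q).1 i = 0 := by
    intro i hi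
    rw [h1, hD i hi, hqD i hi]; simp
  set a : Fin n → ℕ := fun i => ((z + l • q).1 i).toNat with ha
  have haz : ∀ i ∉ J, (a i : ℤ) = (z + l • q).1 i := by
    intro i hi
    simp only [ha]
    exact Int.toNat_of_nonneg (hpos i hi)
  have hsub1 : ∀ w : GG n, (w - (0, 1)).1 = w.1 := by intro w; simp
  have hsub : (z + l • q) - (0, 1) = (z - (0, 1)) + l • q := by abel
  -- the two twisted sums
  have hA : tw LU J (cfun (ZJx f K D (AddMonoidHom.id _))) (z + l • q) =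
      qpw LU (∑ i, (z + l • q).1 i) * ∑ a' ∈ fib (K * (m + 1 + 1)) J a (fun _ => 1),
        Wc f (K * (m + 1 + 1)) (m + 1) a' := by
    refine tw_ZJx f K hJD (by rw [hm]; push_cast; ring) hDz (fun i hi hiD => ⟨hb i hi hiD, ?_⟩)
    have := hbd i
    have hK0 : (0 : ℤ) ≤ K := by positivity
    push_cast
    nlinarith
  have hB : tw LU J (cfun (ZJx f K D (AddMonoidHom.id _))) (z + l • q - (0, 1)) =
      qpw LU (∑ i, (z + l • q).1 i) * ∑ a' ∈ fib (K * (m + 1)) J a (fun _ => 1),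
        Wc f (K * (m + 1)) m a' := by
    have := tw_ZJx f K (J := J) (D := D) hJD (z := z + l • q - (0, 1)) (m := m)
      (by simp only [Prod.snd_sub, hm]; ring)
      (by intro i hi; rw [hsub1]; exact hDz i hi)
      (fun i hi hiD => by
        rw [hsub1]
        exact ⟨hb i hi hiD, (hbd i).le⟩)
    rw [this, hsub1]
  rw [hA, hB]
  -- common cap
  have hapos : ∀ i ∉ J, 0 < a i := by
    intro i hi
    have e1 := haz i hi
    have e2 := hb i hi (by rw [hDe]; exact Finset.notMem_empty i)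
    rw [← e1] at e2
    exact_mod_cast e2
  have haN : ∀ i ∉ J, a i < K * (m + 1) := by
    intro i hi
    have e1 := haz i hi
    have e2 := hbd i
    rw [← e1] at e2
    exact_mod_cast e2
  have hKm : m + 1 ≤ K * (m + 1) := Nat.le_mul_of_pos_left _ hK1
  have hKm' : K * (m + 1) ≤ K * (m + 1 + 1) := Nat.mul_le_mul_left _ (by omega)
  have hKm2 : m + 2 ≤ K * (m + 1 + 1) := Nat.le_mul_of_pos_left _ hK1
  have c1 := eqm_cap hf hnd (N := K * (m + 1 + 1)) (N' := K * (m + 1 + 1) + m + 3)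
    (m := m + 1) (J := J) (a := a) (by omega) (by omega) hapos
    (fun i hi => lt_of_lt_of_le (haN i hi) hKm')
    (fun i hi => by have := haN i hi; omega)
  have c2 := eqm_cap hf hnd (N := K * (m + 1)) (N' := K * (m + 1 + 1) + m + 3)
    (m := m) (J := J) (a := a) (by omega) (by omega) hapos haN
    (fun i hi => by have := haN i hi; omega)
  rw [c1, c2]
  obtain ⟨α, hα1, hα2, hα3, hP, hfa⟩ := hl₁ l hll₁ (by
      intro i hi; rw [← hsub, hsub1]; exact hpos i hi) a m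
    (by intro i hi; rw [← hsub, hsub1]; exact haz i hi)
    (by rw [← hsub, Prod.snd_sub, hm]; ring)
  have hα4 : ∀ x : Fin n → ℂ, (∀ i, x i ≠ 0) →
      ∃ j ∈ J, eval x (pderiv j (inForm f
        (Pjm f J (fun i => if i ∈ J then m - α i else a i) m j))) ≠ 0 := by
    intro x hx
    obtain ⟨j, hj, h⟩ := ncz_face (G := Gk f q) hDfc
      (Pjm f J (fun i => if i ∈ J then m - α i else a i) m)
      (fun J₁ hJ₁ hne₁ => by
        obtain ⟨a', h1', h2', h⟩ := hfa J₁ (hJ₁.trans hJ₀) hne₁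
        rw [h]
        refine hnd a' fun i => ?_
        by_cases hi : i ∈ J
        · exact h2' i hi
        · rw [h1' i hi]
          exact hapos i hi)
      (fun j hj => hP j (hJ₀ hj)) x hx
    exact ⟨j, hJ₀ hj, h⟩
  have key := eq_cap hf hnd (N := K * (m + 1 + 1) + m + 3) (m := m) (by omega) (J := J) (a := a)
    (α := α) hapos (fun i hi => by have := haN i hi; omega) hα1 hα2 hα3 hα4
  rw [key]
  unfold qpw
  ring
/-- the special exponents of a column -/
private theorem fin_col {D : Finset (Fin n)} {s₀ : ℚ} {F : Finset (GG n)} (hF : F ∈ Fl f D s₀) {U : Finset (Fin n)}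
    (hU : Disj01 (Gk f (∑ k ∈ F, k)) U) :
    ∀ j ∈ U, ∃ u ∈ f.support, (∀ k ∈ F, dotH u k = k.2) ∧ u j = 1 ∧
      ∀ i ∈ U, i ≠ j → u i = 0 := by
  classical
  intro j hj
  obtain ⟨u, hu, huj⟩ := hU.2 j hj
  have h1 := (mem_Gk_sum hF).1 hu
  refine ⟨u, h1.1, h1.2, huj, fun i hi hij => ?_⟩
  have h2 := hU.1 u hu
  rw [← Finset.add_sum_erase U (fun j => u j) hj] at h2
  have h3 : u i ≤ ∑ i ∈ U.erase j, u i :=
    Finset.single_le_sum (f := fun i => u i) (fun _ _ => Nat.zero_le _)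
      (Finset.mem_erase.2 ⟨hij, hi⟩)
  omega

/-- the property of vanishing far away is stable under multiplication by a factor -/
private theorem fin_fac {s₀ : ℚ} (J : Finset (Fin n)) (q : GG n) {Y : PowerSeries (RX n)}
    (hY : ∀ z, ∃ l₀ : ℕ, ∀ l ≥ l₀, tw LU J (cfun Y) (z + l • q) = 0) {w : (RX n)ˣ × ℕ}
    (hw : w ∈ OH n s₀) : ∀ z, ∃ l₀ : ℕ, ∀ l ≥ l₀,
      tw LU J (cfun (((fac w : Polynomial (RX n)) : PowerSeries (RX n)) * Y)) (z + l • q) = 0 := by
  intro z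
  obtain ⟨γ, e, b, rfl, -⟩ := hw
  obtain ⟨l₁, hl₁⟩ := hY z
  obtain ⟨l₂, hl₂⟩ := hY (z - ((γ, (b : ℤ)) : GG n))
  refine ⟨l₁ + l₂, fun l hl => ?_⟩
  have h1 : cfun (((fac (uX γ e, b) : Polynomial (RX n)) : PowerSeries (RX n)) * Y) =
      fun z => cfun Y z + (-qpw LU (∑ i, γ i - e)) * cfun Y (z - ((γ, (b : ℤ)) : GG n)) := by
    funext z
    rw [cfun_fac]
    ring
  rw [h1, tw_add LU J (cfun_LF Y) (((cfun_LF Y).shift _).const_mul _),
    tw_const_mul LU J _ ((cfun_LF Y).shift _), tw_shift, hl₁ l (by omega)]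
  have h2 : z + l • q - ((γ, (b : ℤ)) : GG n) = z - ((γ, (b : ℤ)) : GG n) + l • q := by abel
  rw [h2, hl₂ l (by omega), mul_zero, add_zero]

private theorem fin_prod {s₀ : ℚ} (J : Finset (Fin n)) (q : GG n) {Y : PowerSeries (RX n)}
    (hY : ∀ z, ∃ l₀ : ℕ, ∀ l ≥ l₀, tw LU J (cfun Y) (z + l • q) = 0)
    (s : Multiset ((RX n)ˣ × ℕ)) (hs : ∀ w ∈ s, w ∈ OH n s₀) : ∀ z, ∃ l₀ : ℕ, ∀ l ≥ l₀,
      tw LU J (cfun ((((s.map fac).prod : Polynomial (RX n)) : PowerSeries (RX n)) * Y))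
        (z + l • q) = 0 := by
  induction s using Multiset.induction_on with
  | empty =>
    rw [Multiset.map_zero, Multiset.prod_zero, Polynomial.coe_one, one_mul]
    exact hY
  | cons w s ih =>
    rw [Multiset.map_cons, Multiset.prod_cons, Polynomial.coe_mul, mul_assoc]
    exact fin_fac J q (ih fun w hw => hs w (Multiset.mem_cons_of_mem hw))
      (hs w (Multiset.mem_cons_self w s))

/-- **The pole side in all dimensions**: if every chosen vector that contributes the candidate pole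
has a conflict-free deficit, then the part `D` of the zeta function is regular at `s₀`. -/
theorem ZJm_regular_loc {f : MvPolynomial (Fin n) ℂ} (hf : f ≠ 0)
    (hnd : ∀ a : Fin n → ℕ, (∀ i, 0 < a i) → NondegAt f (face f a (nuf f a)))
    {s₀ : ℚ} (h1 : s₀ ≠ -1) {K : ℕ} (hK : -s₀ < K) (Jl : GG n → Finset (Fin n))
    (hJl : ∀ k, IsB f ∅ s₀ k → ConfFree (Gk f k) (suppG k) (Jl k)) :
    ZJm f K ∅ ∈ regularAt s₀ := by
  classical
  obtain ⟨s, K₀, A, hs, hK₀, hA⟩ := ZJx_dec hf h1 hK (D := ∅)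
  obtain ⟨𝓢, h𝓢⟩ := exists_labels Jl hJl
  set 𝒦 : Finset (Finset (GG n)) := K₀.biUnion Finset.powerset with h𝒦
  have hmem : ∀ F, F ∈ 𝒦 ↔ ∃ F' ∈ K₀, F ⊆ F' := by
    intro F
    rw [h𝒦, Finset.mem_biUnion]
    simp only [Finset.mem_powerset]
  have hFl : ∀ F ∈ 𝒦, F ∈ Fl f ∅ s₀ := by
    intro F hF
    obtain ⟨F', hF', hs⟩ := (hmem F).1 hF
    exact Fl.subset (hK₀ F' hF') hs
  have hsub : K₀ ⊆ 𝒦 := fun F hF => (hmem F).2 ⟨F, hF, subset_rfl⟩
  set Z := ZJx f K ∅ (AddMonoidHom.id _) with hZ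
  set P : PowerSeries (RX n) := (((s.map fac).prod : Polynomial (RX n)) : PowerSeries (RX n))
    with hP
  -- the functional vectors
  have hpos : ∀ F ∈ 𝒦, ∀ k ∈ F, 0 < k.2 := fun F hF k hk => ((hFl F hF).1 k hk).pos
  -- the labels
  have hU : ∀ F ∈ 𝒦, F.Nonempty → ∃ U, U ⊆ suppG (∑ k ∈ F, k) ∧
      Disj01 (Gk f (∑ k ∈ F, k)) U ∧ ∀ J ∈ 𝓢 F, J ⊆ U := fun F hF hne =>
    (h𝓢 F (hFl F hF) hne).2.1
  choose! U hU using hU
  have hJdis : ∀ F ∈ 𝒦, F.Nonempty → ∀ J ∈ 𝓢 F, Disj01 (Gk f (∑ k ∈ F, k)) J := by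
    intro F hF hne J hJ
    obtain ⟨-, h2, h3⟩ := hU F hF hne
    exact h2.mono subset_rfl (h3 J hJ) fun j hj => by
      obtain ⟨u, hu, huj⟩ := h2.2 j (h3 J hJ hj)
      exact ⟨u, hu, by rw [huj]; exact one_ne_zero⟩
  -- the decomposition
  set c : Mot := qpw LU (∑ i, (0 : Fin n → ℤ) i - 1) with hc
  set A₀ : Finset (GG n) → (GG n →₀ Mot) := fun F => if F ∈ K₀ then A F else 0 with hA₀
  set A₁ : Finset (GG n) → (GG n →₀ Mot) := fun F =>
    A₀ F + (-c) • shG ((0, ((1 : ℕ) : ℤ)) : GG n) (A₀ F) with hA₁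
  set Y : PowerSeries (RX n) :=
    ((fac (uX 0 1, 1) : Polynomial (RX n)) : PowerSeries (RX n)) * (P * Z) with hY
  have hA₀s : ∀ z, cfun (P * Z) z = ∑ F ∈ 𝒦, GF F (A₀ F) z := by
    intro z
    rw [hP, hA z]
    have h2 : ∑ F ∈ K₀, GF F (A F) z = ∑ F ∈ K₀, GF F (A₀ F) z :=
      Finset.sum_congr rfl fun F hF => by rw [hA₀]; simp only [if_pos hF]
    rw [h2]
    refine Finset.sum_subset hsub fun F _ hF => ?_
    rw [hA₀]
    simp only [if_neg hF]
    exact GF_zero F z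
  have hφ : ∀ z, cfun Y z = ∑ F ∈ 𝒦, GF F (A₁ F) z := by
    intro z
    rw [hY, cfun_fac, hA₀s z, hA₀s, Finset.mul_sum, ← Finset.sum_sub_distrib]
    refine Finset.sum_congr rfl fun F _ => ?_
    rw [hA₁]
    simp only
    rw [GF_add, GF_smul, GF_shG, ← hc]
    ring
  have hYP : Y = P * (((fac (uX 0 1, 1) : Polynomial (RX n)) : PowerSeries (RX n)) * Z) := by
    rw [hY]
    ring
  obtain ⟨M, hM⟩ := patch LU 𝒦 (fun F hF F' hs => by
      obtain ⟨F'', hF'', hs'⟩ := (hmem F).1 hF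
      exact (hmem F').2 ⟨F'', hF'', hs.trans hs'⟩) hpos 𝓢 U
    (fun F hF hne J hJ => (hU F hF hne).2.2 J hJ)
    (fun F hF hne => Fl.ind (hFl F hF) (fin_col (hFl F hF) (hU F hF hne).2.1))
    (fun F hF hne => (h𝓢 F (hFl F hF) hne).1)
    (fun F hF F' hs hne J' hJ' => (h𝓢 F (hFl F hF) (hne.mono hs)).2.2.2 F' hs hne J' hJ')
    (fun F hF hne J hJ F' hF' hFF' z => Fl.h3 (hFl F hF) (hFl F' hF') hFF'
      (fin_col (hFl F hF) (hJdis F hF hne J hJ)) z)
    (cfun Y) A₁ hφ (fun F hF hne J hJ => by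
      rw [hYP]
      refine fin_prod J _ (fun z => ?_) s fun w hw => (hs w hw).1
      obtain ⟨J₀, hJ₀, hD₀⟩ := (h𝓢 F (hFl F hF) hne).2.2.1 J hJ
      have hcar := fun k hk => ((hFl F hF).1 k hk).mem
      have h2 : ∀ i, (∑ k ∈ F, k : GG n).1 i = ∑ k ∈ F, k.1 i := by
        intro i
        rw [Prod.fst_sum, Finset.sum_apply]
      have h3 : (∑ k ∈ F, k : GG n).2 = ∑ k ∈ F, k.2 := Prod.snd_sum
      have h0 : ∀ i, 0 ≤ (∑ k ∈ F, k : GG n).1 i := by
        intro i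
        rw [h2]
        exact Finset.sum_nonneg fun k hk => (hcar k hk).1 i
      have h2pos : 0 < (∑ k ∈ F, k : GG n).2 := by
        rw [h3]
        exact Finset.sum_pos (fun k hk => hpos F hF k hk) hne
      refine eq_main_loc hf hnd h2pos h0 ?_ ?_ ?_ (((hU F hF hne).2.2 J hJ).trans (hU F hF hne).1)
        (hJdis F hF hne J hJ) hJ₀ hD₀ z
      · intro i hi
        rw [h2]
        exact Finset.sum_eq_zero fun k hk => ((hFl F hF).1 k hk).zero i hi
      · intro i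
        have h4 : (∑ k ∈ F, k : GG n).1 i ≤ ∑ i, (∑ k ∈ F, k : GG n).1 i :=
          Finset.single_le_sum (f := fun i => (∑ k ∈ F, k : GG n).1 i) (fun i _ => h0 i)
            (Finset.mem_univ i)
        have h5 : ((∑ i, (∑ k ∈ F, k : GG n).1 i : ℤ) : ℚ) =
            -s₀ * ((∑ k ∈ F, k : GG n).2 : ℤ) := by
          rw [h3]
          simp only [h2]
          rw [Finset.sum_comm]
          push_cast
          rw [Finset.mul_sum]
          refine Finset.sum_congr rfl fun k hk => ?_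
          have h6 := ((hFl F hF).1 k hk).s0 k (hcar k hk)
          push_cast at h6
          exact h6
        have h6 : (((∑ k ∈ F, k : GG n).1 i : ℤ) : ℚ) ≤
            ((∑ i, (∑ k ∈ F, k : GG n).1 i : ℤ) : ℚ) := by exact_mod_cast h4
        have h7 : (0 : ℚ) < (((∑ k ∈ F, k : GG n).2 : ℤ) : ℚ) := by exact_mod_cast h2pos
        have h8 : (((∑ k ∈ F, k : GG n).1 i : ℤ) : ℚ) <
            (K : ℚ) * (((∑ k ∈ F, k : GG n).2 : ℤ) : ℚ) := by
          rw [h5] at h6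
          nlinarith
        exact_mod_cast h8
      · intro u hu
        rw [map_sum, h3]
        exact Finset.sum_le_sum fun k hk => (hcar k hk).2.2.1 u hu)
  -- the conclusion
  have h2 := regular_of_tw ((uX 0 1, 1) ::ₘ s) (s₀ := s₀) (fun w hw => by
    rcases Multiset.mem_cons.1 hw with rfl | hw
    · refine ⟨⟨0, 1, 1, rfl, ?_⟩, one_pos⟩
      intro h
      apply h1
      push_cast at h
      linarith
    · exact hs w hw) Z M (fun z hz => by
    rw [Multiset.map_cons, Multiset.prod_cons, Polynomial.coe_mul, mul_assoc, ← hP, ← hY]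
    exact hM z hz)
  rwa [hZ, map_augX_ZJx] at h2

private theorem muE_eq_Wc {f : MvPolynomial (Fin n) ℂ} (hf : f ≠ 0) {K ε : ℕ} (hK : 1 ≤ K)
    (hε : ε ≤ 1) (hε1 : 1 ≤ ε)
    (hnd : ∀ a : Fin n → ℕ, (∀ i, 0 < a i) → NondegAt f (face f a (nuf f a))) (m : ℕ) :
    muE f ε (m + 1) m = ∑ a ∈ Fintype.piFinset (fun _ : Fin n => Finset.Icc ε (K * (m + 1))),
      Wc f (K * (m + 1)) m a := by
  have hm : m < K * (m + 1) := by nlinarith
  have hεN : ε ≤ K * (m + 1) := by nlinarith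
  rw [← muE_eq f hm hε]
  unfold muE
  rw [clsM_arcs_eq_sum f m hεN, Finset.mul_sum]
  refine Finset.sum_congr rfl fun a ha => ?_
  rw [Fintype.mem_piFinset] at ha
  rw [clsM_stratum hf hm (fun j => (Finset.mem_Icc.1 (ha j)).2)
    (hnd a fun j => lt_of_lt_of_le hε1 (Finset.mem_Icc.1 (ha j)).1)]
  unfold Wc c0 c1
  rfl

/-- The local zeta function is the part with positive orders. -/
theorem ZE_one_eq_loc {f : MvPolynomial (Fin n) ℂ} (hf : f ≠ 0) {K : ℕ} (hK : 1 ≤ K)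
    (hnd : ∀ a : Fin n → ℕ, (∀ i, 0 < a i) → NondegAt f (face f a (nuf f a))) :
    ZE f 1 = ZJm f K ∅ := by
  refine PowerSeries.ext fun m => ?_
  unfold ZE ZJm
  rw [PowerSeries.coeff_mk, PowerSeries.coeff_mk, muE_eq_Wc hf hK le_rfl le_rfl hnd]
  refine Finset.sum_congr ?_ fun _ _ => rfl
  ext a
  rw [mem_boxJ, Fintype.mem_piFinset]
  simp

/-- **Poles of the local zeta function come from good sets**, for polynomials which are
non-degenerate on the compact faces of the Newton polyhedron. -/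
theorem exists_good_of_pole_local {s₀ : ℚ} (hf : f ≠ 0)
    (hnd : ∀ a : Fin n → ℕ, (∀ i, 0 < a i) → NondegAt f (face f a (nuf f a)))
    (h1 : s₀ ≠ -1) (hp : IsPole (Zmot0 f) s₀) :
    ∃ k : GG n, IsB f ∅ s₀ k ∧ ∃ ρ γ, GoodSet f s₀ k ρ γ := by
  classical
  by_contra hcon
  push Not at hcon
  obtain ⟨K, hK⟩ := exists_nat_gt (max (-s₀) 1)
  have hK1 : 1 ≤ K := by
    have : (1 : ℚ) < K := lt_of_le_of_lt (le_max_right _ _) hK
    exact_mod_cast this.le
  have hKs : -s₀ < K := lt_of_le_of_lt (le_max_left _ _) hK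
  apply hp
  rw [Zmot0_eq, ZE_one_eq_loc hf hK1 hnd]
  refine ZJm_regular_loc hf hnd h1 hKs (fun k => if h : IsB f ∅ s₀ k then
    (h.exists_confFree (hcon k h)).choose else ∅) fun k hk => ?_
  rw [dif_pos hk]
  exact (hk.exists_confFree (hcon k hk)).choose_spec

end MPb07157P.Loc
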