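import Pool.Agent.Lib.MP_b07157_ag.PS.Main
import Pool.Agent.Lib.MP_b07157_ag.GN.LocAll
import Pool.Agent.Lib.MP_b07157_agP.P1b
import Pool.Agent.Lib.MP_b07157_agP.P1c

/-!
# P1. The pole side with non-degeneracy on the faces of the Newton polyhedron only
-/

noncomputable section

namespace MPb07157P

open MvPolynomial Finset MPb07157

variable {n : ℕ} {f : MvPolynomial (Fin n) ℂ} {s₀ : ℚ}

/-- P1. As `MPb07157.GN.exists_good_of_pole`, for polynomials which are non-degenerate on the faces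
of the Newton polyhedron. -/
theorem exists_good_of_pole (hf : f ≠ 0)
    (hnd : ∀ a : Fin n → ℕ, NondegAt f (face f a (nuf f a)))
    (h1 : s₀ ≠ -1) (hp : IsPole (Zmot f) s₀) :
    ∃ (D : Finset (Fin n)) (k : GG n), IsB f D s₀ k ∧ ∃ ρ γ, GoodSet f s₀ k ρ γ := by
  classical
  by_contra hcon
  push Not at hcon
  obtain ⟨K, hK⟩ := exists_nat_gt (max (-s₀) 1)
  have hK1 : 1 ≤ K := by
    have : (1 : ℚ) < K := lt_of_le_of_lt (le_max_right _ _) hK
    exact_mod_cast this.le
  have hKs : -s₀ < K := lt_of_le_of_lt (le_max_left _ _) hK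
  apply hp
  rw [Zmot_eq, ZE_zero_eq hf hK1 hnd]
  refine Subalgebra.sum_mem _ fun J _ => ?_
  refine ZJm_regular_face hf hnd h1 hKs (fun k => if h : IsB f J s₀ k then
    (h.exists_confFree (hcon J k h)).choose else ∅) fun k hk => ?_
  rw [dif_pos hk]
  exact (hk.exists_confFree (hcon J k hk)).choose_spec

/-- P2. As `MPb07157.GN.exists_good_of_pole_local`, for polynomials which are non-degenerate on the
compact faces of the Newton polyhedron. -/
theorem exists_good_of_pole_local (hf : f ≠ 0)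
    (hnd : ∀ a : Fin n → ℕ, (∀ i, 0 < a i) → NondegAt f (face f a (nuf f a)))
    (h1 : s₀ ≠ -1) (hp : IsPole (Zmot0 f) s₀) :
    ∃ k : GG n, IsB f ∅ s₀ k ∧ ∃ ρ γ, GoodSet f s₀ k ρ γ := by
  exact Loc.exists_good_of_pole_local hf hnd h1 hp

end MPb07157P
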